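import Pool.Agent.Run7.h470.Mfd

/-!
Non-negative functions that are polynomial in all but one variable, and their analytic pullbacks to
connected real analytic manifolds, are finite sums of squares of meromorphic functions.
-/

set_option autoImplicit false

namespace Pool.Agent.Results.MP_113aa2_ag.OneAnalyticVariable

open Set Filter Topology
open scoped ContDiff Manifold
open Pool.Agent.Helper716_Lang Run7.h470

variable {E : Type} [NormedAddCommGroup E] [NormedSpace ℝ E]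
  {M : Type} [TopologicalSpace M] [ChartedSpace E M] [IsManifold 𝓘(ℝ, E) ω M] [ConnectedSpace M]

theorem two_ne : (2 : MAn E M) ≠ 0 := by
  intro h
  have h1 := congrArg (fun h : MAn E M => (h : M → ℝ) (Classical.arbitrary M)) h
  have h2 : (2 : ℝ) = 0 := h1
  exact two_ne_zero h2

/-- the case of a nonconstant parameter -/
theorem sos_of_val {m : ℕ} (A : Finset (Fin m →₀ ℕ)) (c : A → An ℝ)
    (h0 : ∀ (z : ℝ) (s : Fin m → ℝ), 0 ≤ RC.val A (fun α => (c α : ℝ → ℝ) z) s)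
    (u : MAn E M) (X : Fin m → MAn E M) (x₁ x₂ : M) (hu : (u : M → ℝ) x₁ ≠ (u : M → ℝ) x₂) :
    SOS (MAn E M) (∑ α : A, MAn.pull u (c α) * ∏ i, X i ^ (α.1 i)) := by
  by_contra hcon
  obtain ⟨N, φ, hφ, hneg⟩ := artin two_ne hcon
  have hinj : Function.Injective (φ.comp (MAn.pull u)) := by
    rw [RingHom.coe_comp]
    rcases lt_or_gt_of_ne hu with h | h
    · exact hφ.comp (MAn.pull_injective u h)
    · exact hφ.comp (MAn.pull_injective u h)
  have h1 := transfer_nonneg (φ.comp (MAn.pull u)) hinj A c h0 (fun i => φ (X i))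
  rw [RC.val] at h1
  rw [map_sum] at hneg
  simp only [map_mul, map_prod, map_pow, RingHom.comp_apply] at hneg h1
  exact absurd h1 (not_le.mpr hneg)

theorem result {m : ℕ} (F : (Fin m → ℝ) × ℝ → ℝ) (hF : AnalyticOnNhd ℝ F univ)
    (h0 : ∀ p, 0 ≤ F p)
    (hpoly : ∀ z : ℝ, ∃ P : MvPolynomial (Fin m) ℝ, ∀ x : Fin m → ℝ, F (x, z) = P.eval x)
    (G : M → (Fin m → ℝ) × ℝ) (hG : ContMDiff 𝓘(ℝ, E) 𝓘(ℝ, (Fin m → ℝ) × ℝ) ω G) :
    ∃ (s : ℕ) (h : M → ℝ) (g : Fin s → M → ℝ), ContMDiff 𝓘(ℝ, E) 𝓘(ℝ, ℝ) ω h ∧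
      (∀ i, ContMDiff 𝓘(ℝ, E) 𝓘(ℝ, ℝ) ω (g i)) ∧ (∃ y, h y ≠ 0) ∧
      ∀ y, h y ^ 2 * F (G y) = ∑ i, g i y ^ 2 := by
  classical
  obtain ⟨A, c, hc⟩ := exists_coeffs F hF hpoly
  -- the components of `G`
  let u : MAn E M := ⟨fun y => (G y).2, contDiff_snd.comp_contMDiff hG⟩
  let X : Fin m → MAn E M := fun i => ⟨fun y => (G y).1 i,
    ((contDiff_apply ℝ ℝ i).comp contDiff_fst).comp_contMDiff hG⟩
  -- it is enough to treat the ring of analytic functions
  have hfin : ∀ (c : A → An ℝ) (v : MAn E M),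
      (∀ y, F (G y) = RC.val A (fun α => (c α : ℝ → ℝ) ((v : M → ℝ) y)) (G y).1) →
      SOS (MAn E M) (∑ α : A, MAn.pull v (c α) * ∏ i, X i ^ (α.1 i)) →
      ∃ (s : ℕ) (h : M → ℝ) (g : Fin s → M → ℝ), ContMDiff 𝓘(ℝ, E) 𝓘(ℝ, ℝ) ω h ∧
      (∀ i, ContMDiff 𝓘(ℝ, E) 𝓘(ℝ, ℝ) ω (g i)) ∧ (∃ y, h y ≠ 0) ∧
      ∀ y, h y ^ 2 * F (G y) = ∑ i, g i y ^ 2 := by
    rintro c v hval ⟨s, h, g, hh, hhg⟩
    refine ⟨s, h, fun i => g i, h.an, fun i => (g i).an, MAn.exists_ne hh, fun y => ?_⟩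
    let ev : MAn E M →+* ℝ := (Pi.evalRingHom (fun _ : M => ℝ) y).comp (mSub E M).val.toRingHom
    have hev : ∀ f : MAn E M, ev f = (f : M → ℝ) y := fun f => rfl
    have h1 := congrArg ev hhg
    rw [map_mul, map_pow, map_sum, map_sum] at h1
    simp only [map_pow, map_mul, map_prod] at h1
    rw [hval y, RC.val]
    exact h1
  by_cases hu : ∃ x₁ x₂, (u : M → ℝ) x₁ ≠ (u : M → ℝ) x₂
  · obtain ⟨x₁, x₂, hx⟩ := hu
    refine hfin c u (fun y => hc (G y).1 (G y).2) (sos_of_val A c (fun z s => ?_) u X x₁ x₂ hx)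
    rw [← hc]
    exact h0 _
  · push Not at hu
    by_cases hv : ∃ (v : MAn E M) (x₁ x₂ : M), (v : M → ℝ) x₁ ≠ (v : M → ℝ) x₂
    · obtain ⟨v, x₁, x₂, hx⟩ := hv
      obtain ⟨y₀⟩ : Nonempty M := inferInstance
      let c' : A → An ℝ := fun α => ⟨fun _ => (c α : ℝ → ℝ) ((u : M → ℝ) y₀), analyticOnNhd_const⟩
      refine hfin c' v (fun y => ?_) (sos_of_val A c' (fun z s => ?_) v X x₁ x₂ hx)
      · have h1 := hc (G y).1 (G y).2
        have h2 : (G y).2 = (u : M → ℝ) y₀ := hu y y₀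
        rw [h2] at h1
        have h3 : F (G y) = F ((G y).1, (u : M → ℝ) y₀) := by rw [← h2]
        rw [h3, h1]
      · have h1 := hc s ((u : M → ℝ) y₀)
        have h2 := h0 (s, (u : M → ℝ) y₀)
        rw [h1] at h2
        exact h2
    · -- every analytic function is constant
      push Not at hv
      obtain ⟨y₀⟩ : Nonempty M := inferInstance
      refine ⟨1, fun _ => 1, fun _ _ => √(F (G y₀)), contMDiff_const, fun _ => contMDiff_const,
        ⟨y₀, one_ne_zero⟩, fun y => ?_⟩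
      have h1 : G y = G y₀ := by
        refine Prod.ext (funext fun i => ?_) ?_
        · exact hv (X i) y y₀
        · exact hv u y y₀
      rw [h1]
      simp [Real.sq_sqrt (h0 _)]

end Pool.Agent.Results.MP_113aa2_ag.OneAnalyticVariable
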