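import Pool.Agent.Run7.h470.Curve

/-!
Non-negative analytic functions whose zeros lie on finitely many analytic curves `γ_j`, sections of
one analytic function `u`, and which vanish there with bounded order, are finite sums of squares of
meromorphic functions; the same holds for all their analytic pullbacks on which `u` is not constant.
-/

set_option autoImplicit false

namespace Pool.Agent.Results.MP_113aa2_ag.ZerosOnCurves

open Set Filter Topology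
open scoped ContDiff Manifold
open Pool.Agent.Helper716_Lang Run7.h470

variable {E : Type} [NormedAddCommGroup E] [NormedSpace ℝ E]
  {M : Type} [TopologicalSpace M] [ChartedSpace E M] [IsManifold 𝓘(ℝ, E) ω M] [ConnectedSpace M]

theorem result {n k : ℕ} (f : (Fin n → ℝ) → ℝ) (hf : AnalyticOnNhd ℝ f univ)
    (u : (Fin n → ℝ) → ℝ) (hu : AnalyticOnNhd ℝ u univ)
    (γ : Fin k → ℝ → Fin n → ℝ) (hγ : ∀ j, AnalyticOnNhd ℝ (γ j) univ) (N : ℕ)
    (hlow : ∀ p : Fin n → ℝ, ∃ c : ℝ, 0 < c ∧ ∀ᶠ q in 𝓝 p,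
      c * (∏ j, ∑ i, (q i - γ j (u q) i) ^ 2) ^ N ≤ f q)
    (G : M → Fin n → ℝ) (hG : ContMDiff 𝓘(ℝ, E) 𝓘(ℝ, Fin n → ℝ) ω G)
    (hne : ∃ y y', u (G y) ≠ u (G y')) :
    ∃ (s : ℕ) (h : M → ℝ) (g : Fin s → M → ℝ), ContMDiff 𝓘(ℝ, E) 𝓘(ℝ, ℝ) ω h ∧
      (∀ i, ContMDiff 𝓘(ℝ, E) 𝓘(ℝ, ℝ) ω (g i)) ∧ (∃ y, h y ≠ 0) ∧
      ∀ y, h y ^ 2 * f (G y) = ∑ i, g i y ^ 2 := by
  classical
  let fA : An (Fin n → ℝ) := ⟨f, hf⟩
  let uA : An (Fin n → ℝ) := ⟨u, hu⟩
  let γA : Fin k → Fin n → An ℝ := fun j i => ⟨fun z => γ j z i, fun z _ =>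
    ((ContinuousLinearMap.proj (R := ℝ) (φ := fun _ : Fin n => ℝ) i).analyticAt _).comp
      (hγ j z trivial)⟩
  have hlowA : ∀ p : Fin n → ℝ, ∃ c : ℝ, 0 < c ∧ ∀ᶠ q in 𝓝 p,
      c * ((DD γA : An (EE n)) : EE n → ℝ) (q, (uA : (Fin n → ℝ) → ℝ) q) ^ N ≤
        (fA : (Fin n → ℝ) → ℝ) q := by
    intro p
    obtain ⟨c, hc, h⟩ := hlow p
    refine ⟨c, hc, h.mono fun q hq => ?_⟩
    rw [DD_apply]
    exact hq
  have hlow1 := ext1_low fA uA γA N hlowA
  -- the map into `ℝ^n × ℝ`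
  let G₁ : M → EE n := fun y => (G y, u (G y))
  have huG : ContMDiff 𝓘(ℝ, E) 𝓘(ℝ, ℝ) ω (fun y => u (G y)) := (hu.contDiff (n := ω)).comp_contMDiff hG
  have hG₁ : ContMDiff 𝓘(ℝ, E) 𝓘(ℝ, EE n) ω G₁ := hG.prodMk_space huG
  let uM : MAn E M := ⟨fun y => u (G y), huG⟩
  let fM : MAn E M := MAn.pullMap G₁ hG₁ (ext1 fA uA)
  have hfM : ∀ y, (fM : M → ℝ) y = f (G y) := by
    intro y
    show f (G y) + (u (G y) - u (G y)) ^ 2 = f (G y)
    ring
  obtain ⟨y₁, y₂, hy⟩ := hne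
  have hSOS : SOS (MAn E M) fM := by
    by_contra hcon
    have h2 : (2 : MAn E M) ≠ 0 := by
      intro h
      have h1 := congrArg (fun h : MAn E M => (h : M → ℝ) y₁) h
      have h2 : (2 : ℝ) = 0 := h1
      exact two_ne_zero h2
    obtain ⟨R, φ, hφ, hneg⟩ := artin h2 hcon
    have hcomp : (φ.comp (MAn.pullMap G₁ hG₁)).comp io = φ.comp (MAn.pull uM) := by
      ext c
      rfl
    have hinj : Function.Injective ((φ.comp (MAn.pullMap G₁ hG₁)).comp io) := by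
      rw [hcomp, RingHom.coe_comp]
      rcases lt_or_gt_of_ne hy with h | h
      · exact hφ.comp (MAn.pull_injective uM (x := y₁) (y := y₂) h)
      · exact hφ.comp (MAn.pull_injective uM (x := y₂) (y := y₁) h)
    have h1 := graph_pos γA N (ext1 fA uA) hlow1 (φ.comp (MAn.pullMap G₁ hG₁)) hinj
    exact absurd h1 (not_le.mpr hneg)
  obtain ⟨s, h, g, hh, hhg⟩ := hSOS
  refine ⟨s, h, fun i => g i, h.an, fun i => (g i).an, MAn.exists_ne hh, fun y => ?_⟩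
  let ev : MAn E M →+* ℝ := (Pi.evalRingHom (fun _ : M => ℝ) y).comp (mSub E M).val.toRingHom
  have h1 := congrArg ev hhg
  rw [map_mul, map_pow, map_sum] at h1
  simp only [map_pow] at h1
  rw [← hfM y]
  exact h1

end Pool.Agent.Results.MP_113aa2_ag.ZerosOnCurves
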